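import Mathlib
import Pool.Agent.H90.TgDefs
import Pool.Agent.H90.TgG

namespace Pool.Agent.Results.MP_1bca0d_an.NonScattered

open Pool.Agent.H90.Tg

theorem result (Ω : Type) [TopologicalSpace Ω] [CompactSpace Ω] [T2Space Ω] (W : Set Ω)
    (hW : Preperfect W) (h0 : W.Nonempty) :
    (∃ M : LMod C(Ω, ℂ), ∀ n : ℕ, ¬HasRes M n) ∧ ∀ n : ℕ, ¬BHasRes C(Ω, ℂ) n :=
  ⟨⟨_, dg_inf hW h0⟩, db_inf hW h0⟩

end Pool.Agent.Results.MP_1bca0d_an.NonScattered
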